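import Pool.Agent.Helper51.CX.St

set_option autoImplicit false

/-!
# Project CX (MP_a41ee4_co), module CRA
-/

namespace Pool.Agent.Helper95.CX

open Pool.Agent.Helper51.CX

/-- Bounds for the integer vectors of the members. -/
theorem vxy_bd (j k : ℕ) (hj : j < 64) (hk : k < 66) : |vx j k| ≤ 3414 ∧ |vy j k| ≤ 3414 := by
  have h1 := hT2 j hj
  by_cases h65 : k = 65
  · subst h65
    constructor
    · simp [vx]
    · simp [vy]
  · have h2 : |qx k| ≤ 1707 ∧ |qy k| ≤ 1707 := by
      by_cases hk' : k < 64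
      · exact ⟨(hT2 k hk').1, (hT2 k hk').2.1⟩
      · have h64 : k = 64 := by omega
        subst h64
        decide
    constructor
    · simp only [vx, if_neg h65]
      have := abs_sub (qx j) (qx k)
      linarith [h1.1, h2.1]
    · simp only [vy, if_neg h65]
      have := abs_sub (qy j) (qy k)
      linarith [h1.2.1, h2.2]

theorem hCRA : StAPP → StCRA := by
  intro hAPP K _ _ _ j hj hj' k hk hkj l hl hlj hkl h3 h4 d hd hkd hld
  have hA := hAPP K j hj hj' k hk hkj d (Or.inr ⟨hd, hkd⟩)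
  have hB := hAPP K j hj hj' l hl hlj d (Or.inr ⟨hd, hld⟩)
  have hD := hT4 j hj' hj k hk hkj l hl hlj hkl h3 h4
  have hD1 : (1 : K) ≤ |(vx j k : K) * vy j l - vy j k * vx j l| := by
    have h := Int.one_le_abs hD
    have h' : ((1 : ℤ) : K) ≤ ((|vx j k * vy j l - vy j k * vx j l| : ℤ) : K) := by exact_mod_cast h
    push_cast at h'
    exact h'
  obtain ⟨k1, k2⟩ := vxy_bd j k hj' hk
  obtain ⟨l1, l2⟩ := vxy_bd j l hj' hl
  have k1' : |(vx j k : K)| ≤ 3414 := by exact_mod_cast k1
  have k2' : |(vy j k : K)| ≤ 3414 := by exact_mod_cast k2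
  have l1' : |(vx j l : K)| ≤ 3414 := by exact_mod_cast l1
  have l2' : |(vy j l : K)| ≤ 3414 := by exact_mod_cast l2
  generalize (vx j k : K) = a at *
  generalize (vy j k : K) = b at *
  generalize (vx j l : K) = a' at *
  generalize (vy j l : K) = b' at *
  have hn := nn_nonneg d
  have hm := mm_nonneg d
  have key : ∀ (x X c Y e : K), x = c * X - e * Y → |c| ≤ 3414 → |e| ≤ 3414 → |x| ≤ 3414 * (|X| + |Y|) := by
    intro x X c Y e hx hc he
    rw [hx]
    have e1 := abs_sub (c * X) (e * Y)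
    rw [abs_mul, abs_mul] at e1
    have e2 := mul_le_mul_of_nonneg_right hc (abs_nonneg X)
    have e3 := mul_le_mul_of_nonneg_right he (abs_nonneg Y)
    linarith
  have g0 : |(a * b' - b * a') * d 0| ≤ 3414 * (|a * d 0 + b * d 1| + |a' * d 0 + b' * d 1|) :=
    key _ _ b' _ b (by ring) l2' k2'
  have g1 : |(a * b' - b * a') * d 1| ≤ 3414 * (|a' * d 0 + b' * d 1| + |a * d 0 + b * d 1|) :=
    key _ _ a _ a' (by ring) k1' l1'
  rw [abs_mul] at g0 g1
  have f0 : |d 0| ≤ |a * b' - b * a'| * |d 0| := le_mul_of_one_le_left (abs_nonneg _) hD1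
  have f1 : |d 1| ≤ |a * b' - b * a'| * |d 1| := le_mul_of_one_le_left (abs_nonneg _) hD1
  have hnn : nn d ≤ 6828 * (|a * d 0 + b * d 1| + |a' * d 0 + b' * d 1|) := by
    simp only [nn]
    linarith
  generalize |a * d 0 + b * d 1| = A at *
  generalize |a' * d 0 + b' * d 1| = B at *
  norm_num at hA hB ⊢
  linarith

end Pool.Agent.Helper95.CX
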